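import Pool.Agent.TH983.FC.Bon

/-! All labelled copies of a six-vertex pattern, and a lower bound for their number. -/

set_option autoImplicit false
set_option maxRecDepth 100000
set_option maxHeartbeats 4000000
open Finset
open scoped Classical

namespace Pool.Agent.TH983.FC
open Pool.Agent.H122R2.N6 Pool.Agent.H37R3.Pen Pool.Agent.H37R3.Cop Pool.Agent.H37R3.CopL

def TIT : ℕ := 0xa5294a52949ca30a4e8f736927d18ba45cca2a906ad54a52728c294a52949d28941e544d0c58d106a121439494a4e8f73674a2507a5294a51e9a506272283a05a7a0834a49f462e544d0c57a69418a94a529461874a016515014a45cca2a3441a8472283a05861d280a5294a514408294a41ab552143949469e820d1651501451020a5294a5294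

/-- the index of a triple -/
def tin (i j k : ℕ) : ℕ := Nat.mod (Nat.shiftRight TIT (Nat.mul 5 (Nat.add (Nat.mul 36 i) (Nat.add (Nat.mul 6 j) k)))) 32

theorem tin_eq : ∀ i j k : Fin 6, tin i.val j.val k.val = ti i j k := by decide +kernel

def pb (m i j k : ℕ) : ℕ := bt m (tin i j k)

def orbC (m : ℕ) (L : List ℕ) (h0 h1 h2 h3 h4 h5 : ℕ) : Bool :=
  or (not (Nat.beq (tg (pb m h0 h1 h2) (pb m h0 h1 h3) (pb m h0 h2 h3) (pb m h1 h2 h3) (pb m h0 h1 h4) (pb m h0 h2 h4) (pb m h1 h2 h4) (pb m h0 h3 h4) (pb m h1 h3 h4) (pb m h2 h3 h4)) 4))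
    (mem L (pb m h0 h1 h2) (pb m h0 h1 h3) (pb m h0 h2 h3) (pb m h1 h2 h3) (pb m h0 h1 h4) (pb m h0 h2 h4) (pb m h1 h2 h4) (pb m h0 h3 h4) (pb m h1 h3 h4) (pb m h2 h3 h4) (pb m h0 h1 h5) (pb m h0 h2 h5) (pb m h1 h2 h5) (pb m h0 h3 h5) (pb m h1 h3 h5) (pb m h2 h3 h5) (pb m h0 h4 h5) (pb m h1 h4 h5) (pb m h2 h4 h5) (pb m h3 h4 h5))

def ne (a b : ℕ) (x : Bool) : Bool := or (Nat.beq a b) x

/-- all relabellings of the pattern `m` with a representative prefix are in the list -/
def orbA (m : ℕ) (L : List ℕ) : Bool :=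
  nall 6 fun h0 => nall 6 fun h1 => ne h0 h1 (nall 6 fun h2 => ne h0 h2 (ne h1 h2 (nall 6 fun h3 =>
    ne h0 h3 (ne h1 h3 (ne h2 h3 (nall 6 fun h4 => ne h0 h4 (ne h1 h4 (ne h2 h4 (ne h3 h4 (nall 6 fun h5 =>
      ne h0 h5 (ne h1 h5 (ne h2 h5 (ne h3 h5 (ne h4 h5 (orbC m L h0 h1 h2 h3 h4 h5)))))))))))))))

theorem ne_true {a b : ℕ} {x : Bool} (h : ne a b x = true) (hab : a ≠ b) : x = true := by
  unfold ne at h
  rw [Bool.or_eq_true] at h
  rcases h with h | h
  · exact absurd (Nat.eq_of_beq_eq_true h) hab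
  · exact h

theorem orbA_at {m : ℕ} {L : List ℕ} (hA : orbA m L = true) (h : Fin 6 → Fin 6)
    (hi : Function.Injective h) : orbC m L (h 0) (h 1) (h 2) (h 3) (h 4) (h 5) = true := by
  have n : ∀ i j : Fin 6, i ≠ j → (h i).val ≠ (h j).val := fun i j hij e => hij (hi (Fin.ext e))
  have l : ∀ i : Fin 6, (h i).val < 6 := fun i => (h i).isLt
  have a0 := nall_true hA _ (l 0)
  have a1 := ne_true (nall_true a0 _ (l 1)) (n 0 1 (by decide))
  have a2 := ne_true (ne_true (nall_true a1 _ (l 2)) (n 0 2 (by decide))) (n 1 2 (by decide))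
  have a3 := ne_true (ne_true (ne_true (nall_true a2 _ (l 3)) (n 0 3 (by decide))) (n 1 3 (by decide))) (n 2 3 (by decide))
  have a4 := ne_true (ne_true (ne_true (ne_true (nall_true a3 _ (l 4)) (n 0 4 (by decide))) (n 1 4 (by decide))) (n 2 4 (by decide))) (n 3 4 (by decide))
  exact ne_true (ne_true (ne_true (ne_true (ne_true (nall_true a4 _ (l 5)) (n 0 5 (by decide))) (n 1 5 (by decide))) (n 2 5 (by decide))) (n 3 5 (by decide))) (n 4 5 (by decide))

section
variable {V : Type} {E : V → V → V → ℕ}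

theorem hmemZ (hE : Sy E) {m : ℕ} {L : List ℕ} (hA : orbA m L = true) (a b c d e f : V)
    (ht : tg (E a b c) (E a b d) (E a c d) (E b c d) (E a b e) (E a c e) (E b c e) (E a d e) (E b d e) (E c d e) = 4) (hX : XL6 E [m] a b c d e f = 1) :
    mem L (E a b c) (E a b d) (E a c d) (E b c d) (E a b e) (E a c e) (E b c e) (E a d e) (E b d e) (E c d e) (E a b f) (E a c f) (E b c f) (E a d f) (E b d f) (E c d f) (E a e f) (E b e f) (E c e f) (E d e f) = true := by
  have hR : RelL E [m] ![a, b, c, d, e, f] := by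
    by_contra hcon
    unfold XL6 XL at hX
    rw [if_neg hcon] at hX
    exact absurd hX (by norm_num)
  obtain ⟨g, hg, m', hm', hc⟩ := hR
  rw [List.mem_singleton] at hm'
  subst hm'
  have hb : Function.Bijective g := Finite.injective_iff_bijective.mp hg
  set q := Equiv.ofBijective g hb with hq
  set h : Fin 6 → Fin 6 := fun i => q.symm i with hh
  have hgh : ∀ i, g (h i) = i := fun i => q.apply_symm_apply i
  have hi : Function.Injective h := q.symm.injective
  have key : ∀ i j k : Fin 6, i ≠ j → i ≠ k → j ≠ k →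
      E (![a, b, c, d, e, f] i) (![a, b, c, d, e, f] j) (![a, b, c, d, e, f] k) =
        pb m' (h i).val (h j).val (h k).val := by
    intro i j k hij hik hjk
    have h1 := hc.full hE (h i) (h j) (h k) (fun e => hij (hi e)) (fun e => hik (hi e))
      (fun e => hjk (hi e))
    simp only [Function.comp, hgh] at h1
    rw [h1, ← tin_eq]
    rfl
  have e012 : E a b c = pb m' (h 0) (h 1) (h 2) := key 0 1 2 (by decide) (by decide) (by decide)
  have e013 : E a b d = pb m' (h 0) (h 1) (h 3) := key 0 1 3 (by decide) (by decide) (by decide)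
  have e023 : E a c d = pb m' (h 0) (h 2) (h 3) := key 0 2 3 (by decide) (by decide) (by decide)
  have e123 : E b c d = pb m' (h 1) (h 2) (h 3) := key 1 2 3 (by decide) (by decide) (by decide)
  have e014 : E a b e = pb m' (h 0) (h 1) (h 4) := key 0 1 4 (by decide) (by decide) (by decide)
  have e024 : E a c e = pb m' (h 0) (h 2) (h 4) := key 0 2 4 (by decide) (by decide) (by decide)
  have e124 : E b c e = pb m' (h 1) (h 2) (h 4) := key 1 2 4 (by decide) (by decide) (by decide)
  have e034 : E a d e = pb m' (h 0) (h 3) (h 4) := key 0 3 4 (by decide) (by decide) (by decide)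
  have e134 : E b d e = pb m' (h 1) (h 3) (h 4) := key 1 3 4 (by decide) (by decide) (by decide)
  have e234 : E c d e = pb m' (h 2) (h 3) (h 4) := key 2 3 4 (by decide) (by decide) (by decide)
  have e015 : E a b f = pb m' (h 0) (h 1) (h 5) := key 0 1 5 (by decide) (by decide) (by decide)
  have e025 : E a c f = pb m' (h 0) (h 2) (h 5) := key 0 2 5 (by decide) (by decide) (by decide)
  have e125 : E b c f = pb m' (h 1) (h 2) (h 5) := key 1 2 5 (by decide) (by decide) (by decide)
  have e035 : E a d f = pb m' (h 0) (h 3) (h 5) := key 0 3 5 (by decide) (by decide) (by decide)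
  have e135 : E b d f = pb m' (h 1) (h 3) (h 5) := key 1 3 5 (by decide) (by decide) (by decide)
  have e235 : E c d f = pb m' (h 2) (h 3) (h 5) := key 2 3 5 (by decide) (by decide) (by decide)
  have e045 : E a e f = pb m' (h 0) (h 4) (h 5) := key 0 4 5 (by decide) (by decide) (by decide)
  have e145 : E b e f = pb m' (h 1) (h 4) (h 5) := key 1 4 5 (by decide) (by decide) (by decide)
  have e245 : E c e f = pb m' (h 2) (h 4) (h 5) := key 2 4 5 (by decide) (by decide) (by decide)
  have e345 : E d e f = pb m' (h 3) (h 4) (h 5) := key 3 4 5 (by decide) (by decide) (by decide)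
  have hC := orbA_at hA h hi
  unfold orbC at hC
  rw [e012, e013, e023, e123, e014, e024, e124, e034, e134, e234] at ht
  rw [e012, e013, e023, e123, e014, e024, e124, e034, e134, e234, e015, e025, e125, e035, e135, e235, e045, e145, e245, e345]
  rw [ht] at hC
  exact hC

theorem XL6_le (M : List ℕ) (a b c d e f : V) : XL6 E M a b c d e f ≤ 1 := by
  unfold XL6 XL
  split_ifs <;> norm_num

end

variable {V : Type}

/-- the mask `m` describes the six-vertex 3-graph `F` -/
def MaskW (m : ℕ) (F : Finset (Finset (Fin 6))) : Prop :=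
  ∀ i j k : Fin 6, i < j → j < k → (bt m (ti i j k) = 1 ↔ ({i, j, k} : Finset (Fin 6)) ∈ F)

theorem bt_le (m i : ℕ) : bt m i = 0 ∨ bt m i = 1 := by
  unfold bt
  exact Nat.mod_two_eq_zero_or_one _

theorem copy_of_induces {H : Finset (Finset V)} {m : ℕ} {F : Finset (Finset (Fin 6))}
    (hm : MaskW m F) {f : Fin 6 → V}
    (hf : ∀ t : Finset (Fin 6), t.card = 3 → (t.image f ∈ H ↔ t ∈ F)) : Copy (tri H) m f := by
  intro i j k hij hjk
  have hc : ({i, j, k} : Finset (Fin 6)).card = 3 := by
    rw [card_eq_three]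
    exact ⟨i, j, k, hij.ne, (hij.trans hjk).ne, hjk.ne, rfl⟩
  have h1 := hf _ hc
  rw [← hm i j k hij hjk] at h1
  simp only [image_insert, image_singleton] at h1
  rw [← tri_one (H := H)] at h1
  rcases bt_le m (ti i j k) with h0 | h0
  · rw [h0] at h1 ⊢
    rcases (tri_sy H).b (f i) (f j) (f k) with h2 | h2
    · exact h2
    · rw [h2] at h1
      simp at h1
  · rw [h0]
    exact h1.mpr h0

theorem fiber_ge [Fintype V] (S : Finset V) (hS : S.card = 6) :
    720 ≤ ((univ : Finset (Fin 6 → V)).filter fun x => univ.image x = S).card := by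
  have h1 : (univ : Finset (Fin 6 ↪ S)).card = 720 := by
    rw [card_univ, Fintype.card_embedding_eq, Fintype.card_fin, Fintype.card_coe, hS]
    decide
  rw [← h1]
  refine card_le_card_of_injOn (fun e i => (e i : V)) ?_ ?_
  · intro e _
    rw [mem_coe, mem_filter]
    refine ⟨mem_univ _, ?_⟩
    refine eq_of_subset_of_card_le ?_ ?_
    · intro v hv
      rw [mem_image] at hv
      obtain ⟨i, -, rfl⟩ := hv
      exact (e i).2
    · rw [card_image_of_injective _ (fun i j hij => e.injective (Subtype.ext hij)), hS]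
      rfl
  · intro e _ e' _ he
    ext i
    exact congrFun he i

theorem le_sum_XL [Fintype V] {H : Finset (Finset V)} {m : ℕ} {F : Finset (Finset (Fin 6))}
    (hm : MaskW m F) :
    720 * (((univ : Finset V).powersetCard 6).filter fun S => Induces F H S).card ≤
      ∑ x : Fin 6 → V, XL (tri H) [m] x := by
  set TA := ((univ : Finset V).powersetCard 6).filter fun S => Induces F H S with hTA
  have e1 : ∑ x : Fin 6 → V, XL (tri H) [m] x =
      ((univ : Finset (Fin 6 → V)).filter fun x => RelL (tri H) [m] x).card := by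
    rw [card_filter]; rfl
  rw [e1]
  have h1 : ((univ : Finset (Fin 6 → V)).filter fun x => univ.image x ∈ TA) ⊆
      ((univ : Finset (Fin 6 → V)).filter fun x => RelL (tri H) [m] x) := by
    intro x hx
    rw [mem_filter] at hx ⊢
    refine ⟨mem_univ _, ?_⟩
    have hx2 := hx.2
    rw [hTA, mem_filter, mem_powersetCard] at hx2
    obtain ⟨⟨-, hc⟩, f, hf, hfi, hfe⟩ := hx2
    have hxi : Function.Injective x := by
      have h1 : (univ.image x).card = (univ : Finset (Fin 6)).card := by rw [hc]; rfl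
      have h2 := Finset.injOn_of_card_image_eq h1
      intro i j hij
      exact h2 (by simp) (by simp) hij
    have hg : ∀ i, ∃ j, x j = f i := by
      intro i
      have : f i ∈ univ.image x := by rw [← hfi]; exact mem_image_of_mem _ (mem_univ _)
      rw [mem_image] at this
      obtain ⟨j, -, hj⟩ := this
      exact ⟨j, hj⟩
    choose g hg using hg
    have hxg : x ∘ g = f := funext hg
    refine ⟨g, ?_, m, List.mem_singleton.mpr rfl, ?_⟩
    · intro i j hij
      apply hf
      rw [← hg i, ← hg j, hij]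
    · rw [hxg]
      exact copy_of_induces hm hfe
  refine le_trans ?_ (card_le_card h1)
  have hmap : ∀ x ∈ (univ : Finset (Fin 6 → V)).filter (fun x => univ.image x ∈ TA),
      univ.image x ∈ TA := fun x hx => (mem_filter.mp hx).2
  rw [card_eq_sum_card_fiberwise hmap]
  calc 720 * TA.card = ∑ S ∈ TA, 720 := by rw [sum_const, smul_eq_mul, mul_comm]
    _ ≤ _ := by
      refine sum_le_sum fun S hS => ?_
      have hS6 : S.card = 6 := (mem_powersetCard.mp (mem_filter.mp hS).1).2
      refine (fiber_ge S hS6).trans (card_le_card ?_)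
      intro x hx
      rw [mem_filter] at hx
      rw [mem_filter, mem_filter]
      exact ⟨⟨mem_univ _, by rw [hx.2]; exact hS⟩, hx.2⟩

end Pool.Agent.TH983.FC
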